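import Pool.Agent.H.MP_f7573e_al.A

set_option autoImplicit false

namespace Pool.Agent.H.MP_f7573e_al

theorem big1 : (S.take 12).all (big L0 [0, 1, 2, 3] tot) = true := by decide +kernel

theorem big2 : (S.drop 12).all (big L0 [0, 1, 2, 3] tot) = true := by decide +kernel

theorem big3 : S.all (big Ll [0, 1, 2, 3, 4] (chkN Ll)) = true := by decide +kernel

theorem lin_dvd (l a b c d e r : List ℕ) (ha : a ≠ []) (hb : b ≠ []) (hc : c ≠ []) (hd : d ≠ []) (he : e ≠ []) :
    4 ∣ chk Ll l [a, b, c, d, e] r := by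
  by_cases h : chk Ll l [a, b, c, d, e] r = 0
  · simp [h]
  · rw [← chkN_eq]
    exact big_spec Ll _ _ big3 l _ r h (by simp [Ll, *]) (by simp [Ll, List.idxOf_cons])

theorem tot_dvd0 (l a b c d r : List ℕ) (ha : a ≠ []) (hb : b ≠ []) (hc : c ≠ []) (hd : d ≠ [])
    (h : chk L0 l [a, b, c, d] r ≠ 0) : 4 ∣ chk L0 l [a, b, c, d] r + chk L0 l [b, a, d, c] r +
      chk L0 l [c, d, a, b] r + chk L0 l [d, c, b, a] r := by
  simp only [← chkN_eq]
  exact big_spec L0 _ tot (by rw [← S.take_append_drop 12, List.all_append, big1, big2]; rfl) l _ r h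
    (by simp [L0, *]) (by simp [L0, List.idxOf_cons])

theorem tot_dvd (l a b c d r : List ℕ) (ha : a ≠ []) (hb : b ≠ []) (hc : c ≠ []) (hd : d ≠ []) :
    4 ∣ chk L0 l [a, b, c, d] r + chk L0 l [b, a, d, c] r + chk L0 l [c, d, a, b] r + chk L0 l [d, c, b, a] r := by
  have := tot_dvd0 l a b c d r ha hb hc hd
  have := tot_dvd0 l b a d c r hb ha hd hc
  have := tot_dvd0 l c d a b r hc hd ha hb
  have := tot_dvd0 l d c b a r hd hc hb ha
  omega

end Pool.Agent.H.MP_f7573e_al
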