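import Pool.Agent.H.MP_f7573e_al.B

set_option autoImplicit false

namespace Pool.Agent.H.MP_f7573e_al

abbrev F := MonoidAlgebra ℤ (FreeMonoid ℕ)

noncomputable def mon (w : List ℕ) : F := MonoidAlgebra.of ℤ _ (FreeMonoid.ofList w)

theorem mon_append (u v : List ℕ) : mon (u ++ v) = mon u * mon v := map_mul (MonoidAlgebra.of ℤ _) _ _

noncomputable def lam : F →ₗ[ℤ] ℤ :=
  Finsupp.linearCombination ℤ (fun w => (tab (FreeMonoid.toList w) : ℤ)) ∘ₗ (MonoidAlgebra.coeffLinearEquiv ℤ).toLinearMap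

theorem lam_mon (w : List ℕ) : lam (mon w) = tab w := by simp [lam, mon]

noncomputable def I : TwoSidedIdeal F := TwoSidedIdeal.mk' {x | ∀ l r, 4 ∣ lam (l * x * r)} (by simp)
  (fun hx hy l r => by rw [mul_add, add_mul, map_add]; exact dvd_add (hx l r) (hy l r))
  (fun hx l r => by rw [mul_neg, neg_mul, map_neg]; exact (hx l r).neg_right)
  (fun hx l r => by rw [← mul_assoc]; exact hx _ r) fun hx l r => by
    rw [← mul_assoc, mul_assoc]; exact hx l _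

abbrev Q := I.ringCon.Quotient

noncomputable abbrev π : F →+* Q := I.ringCon.mk'

theorem π_zero (x : F) : π x = 0 ↔ ∀ l r, 4 ∣ lam (mon l * x * mon r) := by
  refine (I.ringCon.eq.trans ((I.mem_iff x).symm.trans (TwoSidedIdeal.mem_mk' ..))).trans ⟨fun h _ _ => h _ _, fun h l r => ?_⟩
  induction l using MonoidAlgebra.induction_on with
  | of l =>
    induction r using MonoidAlgebra.induction_on with
    | of r => exact h l r
    | add a b ha hb => rw [mul_add, map_add]; exact dvd_add ha hb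
    | smul c a ha => rw [mul_smul_comm, map_smul]; exact ha.mul_left c
  | add a b ha hb => rw [add_mul, add_mul, map_add]; exact dvd_add ha hb
  | smul c a ha => rw [smul_mul_assoc, smul_mul_assoc, map_smul]; exact ha.mul_left c

def E {R : Type} [Ring R] (L : List (List ℕ × ℕ)) (v : List R) : R :=
  (L.map fun p => p.2 • (p.1.map (v.getD · 1)).prod).sum

theorem map_E {R R' : Type} [Ring R] [Ring R'] (φ : R →+* R') (L : List (List ℕ × ℕ)) (v : List R) :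
    φ (E L v) = E L (v.map φ) := by
  simp only [E, map_list_sum, List.map_map, Function.comp_def, map_nsmul, map_list_prod, ← map_one φ, List.getD_map]

theorem lam_E (l : List ℕ) (ws : List (List ℕ)) (r : List ℕ) (L : List (List ℕ × ℕ)) :
    lam (mon l * E L (ws.map mon) * mon r) = chk L l ws r := by
  have h : ∀ p : List ℕ, (p.map ((ws.map mon).getD · 1)).prod = mon (p.flatMap (ws.getD · [])) := fun p => by
    induction p with
    | nil => rfl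
    | cons i p ih => rw [List.map_cons, List.prod_cons, ih, List.flatMap_cons, mon_append, ← List.getD_map ws [] mon]; rfl
  induction L with
  | nil => simp [E, chk]
  | cons p L ih =>
    simp only [E, chk, List.map_cons, List.sum_cons, mul_add, add_mul, map_add] at ih ⊢
    rw [ih, h, mul_smul_comm, smul_mul_assoc, map_nsmul, mul_assoc, ← mon_append, ← mon_append, lam_mon]
    simp

def f4 {R : Type} [Ring R] (a b c d : R) : R :=
  E L0 [a, b, c, d] + E L0 [b, a, d, c] + E L0 [c, d, a, b] + E L0 [d, c, b, a]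

theorem f4_add {R : Type} [Ring R] (a b c d e : R) :
    f4 a b c (d + e) = f4 a b c d + f4 a b c e + E Ll [a, b, c, d, e] := by
  simp [f4, E, L0, Ll, mul_add, add_mul]
  abel

def W : Subsemigroup Q where
  carrier := {x | ∃ w ≠ [], x = π (mon w)}
  mul_mem' := by
    rintro _ _ ⟨u, hu, rfl⟩ ⟨v, _, rfl⟩
    exact ⟨u ++ v, by simp [hu], by rw [mon_append, map_mul]⟩

theorem red (φ : Q → Q) (h : ∀ a ∈ AddSubgroup.closure (W : Set Q), ∀ b ∈ AddSubgroup.closure (W : Set Q),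
    φ (a + b) = φ a + φ b) (h0 : ∀ w ≠ [], φ (π (mon w)) = 0) : ∀ a ∈ AddSubgroup.closure (W : Set Q), φ a = 0 := by
  have h1 : φ 0 = 0 := by simpa using h 0 (zero_mem _) 0 (zero_mem _)
  intro a ha
  induction ha using AddSubgroup.closure_induction with
  | mem x hx => obtain ⟨w, hw, rfl⟩ := hx; exact h0 w hw
  | zero => exact h1
  | add x y hx hy ex ey => rw [h x hx y hy, ex, ey, add_zero]
  | neg x hx ex => simpa [ex, h1] using (h x hx _ (neg_mem hx)).symm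

theorem lin_zero : ∀ a ∈ AddSubgroup.closure (W : Set Q), ∀ b ∈ AddSubgroup.closure (W : Set Q),
    ∀ c ∈ AddSubgroup.closure (W : Set Q), ∀ d ∈ AddSubgroup.closure (W : Set Q),
    ∀ e ∈ AddSubgroup.closure (W : Set Q), E Ll [a, b, c, d, e] = 0 := fun a ha b hb c hc d hd e he => by
  refine red (E Ll [·, b, c, d, e]) (fun _ _ _ _ => ?_) (fun a ha => red (E Ll [_, ·, c, d, e]) (fun _ _ _ _ => ?_)
    (fun b hb => red (E Ll [_, _, ·, d, e]) (fun _ _ _ _ => ?_) (fun c hc => red (E Ll [_, _, _, ·, e])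
      (fun _ _ _ _ => ?_) (fun d hd => red (E Ll [_, _, _, _, ·]) (fun _ _ _ _ => ?_) (fun e he => ?_) e he) d hd)
        c hc) b hb) a ha
  rotate_right
  · refine (map_E π Ll [mon a, mon b, mon c, mon d, mon e]).symm.trans ((π_zero _).mpr fun l r => ?_)
    exact (lam_E l [a, b, c, d, e] r Ll).symm ▸ Int.natCast_dvd_natCast.mpr (lin_dvd l a b c d e r ha hb hc hd he)
  all_goals
    simp [E, Ll, mul_add, add_mul]
    abel

theorem f4_zero : ∀ a ∈ AddSubgroup.closure (W : Set Q), ∀ b ∈ AddSubgroup.closure (W : Set Q),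
    ∀ c ∈ AddSubgroup.closure (W : Set Q), ∀ d ∈ AddSubgroup.closure (W : Set Q), f4 a b c d = 0 := by
  intro a ha b hb c hc d hd
  have s1 : ∀ a b c d : Q, f4 a b c d = f4 b a d c := fun _ _ _ _ => by unfold f4; abel
  have s2 : ∀ a b c d : Q, f4 a b c d = f4 c d a b := fun _ _ _ _ => by unfold f4; abel
  have s3 : ∀ a b c d : Q, f4 a b c d = f4 d c b a := fun _ _ _ _ => by unfold f4; abel
  have m : ∀ w ≠ [], π (mon w) ∈ AddSubgroup.closure (W : Set Q) := fun w h => AddSubgroup.subset_closure ⟨w, h, rfl⟩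
  refine red (f4 · b c d) (fun x hx y hy => ?_) (fun a ha => red (f4 _ · c d) (fun x hx y hy => ?_)
    (fun b hb => red (f4 _ _ · d) (fun x hx y hy => ?_) (fun c hc => red (f4 _ _ _ ·)
      (fun x hx y hy => ?_) (fun d hd => ?_) d hd) c hc) b hb) a ha
  · simp only [s3 _ b c d, f4_add, lin_zero _ hd _ hc _ hb _ hx _ hy, add_zero]
  · simp only [s2 _ _ c d, f4_add, lin_zero _ hc _ hd _ (m _ ha) _ hx _ hy, add_zero]
  · simp only [s1 _ _ _ d, f4_add, lin_zero _ (m _ hb) _ (m _ ha) _ hd _ hx _ hy, add_zero]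
  · simp only [f4_add, lin_zero _ (m _ ha) _ (m _ hb) _ (m _ hc) _ hx _ hy, add_zero]
  · have h : f4 (π (mon a)) (π (mon b)) (π (mon c)) (π (mon d)) = π (f4 (mon a) (mon b) (mon c) (mon d)) := by
      simp only [f4, map_add, map_E, List.map_cons, List.map_nil]
    refine h.trans ((π_zero _).mpr fun l r => ?_)
    have := Int.natCast_dvd_natCast.mpr (tot_dvd l a b c d r ha hb hc hd)
    simpa only [f4, mul_add, add_mul, map_add, Nat.cast_add, ← lam_E, List.map_cons, List.map_nil, Nat.cast_ofNat]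
      using this

def Lf : List (FreeSemigroup ℕ × ℤ) :=
  [(⟨1, [0, 2, 3]⟩, 1), (⟨0, [1, 3, 2]⟩, 1), (⟨3, [2, 0, 1]⟩, 1), (⟨2, [3, 1, 0]⟩, 1), (⟨1, [2, 0, 3]⟩, 1),
   (⟨0, [3, 1, 2]⟩, 1), (⟨3, [0, 2, 1]⟩, 1), (⟨2, [1, 3, 0]⟩, 1), (⟨0, [1, 2, 3]⟩, 3), (⟨1, [0, 3, 2]⟩, 3),
   (⟨2, [3, 0, 1]⟩, 3), (⟨3, [2, 1, 0]⟩, 3), (⟨2, [1, 0, 3]⟩, 3), (⟨3, [0, 1, 2]⟩, 3), (⟨0, [3, 2, 1]⟩, 3),
   (⟨1, [2, 3, 0]⟩, 3), (⟨0, [1, 2, 3, 3]⟩, 2), (⟨1, [0, 3, 2, 2]⟩, 2), (⟨2, [3, 0, 1, 1]⟩, 2),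
   (⟨3, [2, 1, 0, 0]⟩, 2), (⟨0, [2, 1, 3, 3]⟩, 2), (⟨1, [3, 0, 2, 2]⟩, 2), (⟨2, [0, 3, 1, 1]⟩, 2),
   (⟨3, [1, 2, 0, 0]⟩, 2), (⟨2, [0, 1, 3, 3]⟩, 2), (⟨3, [1, 0, 2, 2]⟩, 2), (⟨0, [2, 3, 1, 1]⟩, 2),
   (⟨1, [3, 2, 0, 0]⟩, 2), (⟨2, [1, 0, 3, 3]⟩, 2), (⟨3, [0, 1, 2, 2]⟩, 2), (⟨0, [3, 2, 1, 1]⟩, 2),
   (⟨1, [2, 3, 0, 0]⟩, 2), (⟨3, [3, 0, 1, 2]⟩, 2), (⟨2, [2, 1, 0, 3]⟩, 2), (⟨1, [1, 2, 3, 0]⟩, 2),
   (⟨0, [0, 3, 2, 1]⟩, 2), (⟨3, [3, 1, 0, 2]⟩, 2), (⟨2, [2, 0, 1, 3]⟩, 2), (⟨1, [1, 3, 2, 0]⟩, 2),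
   (⟨0, [0, 2, 3, 1]⟩, 2), (⟨3, [3, 1, 2, 0]⟩, 2), (⟨2, [2, 0, 3, 1]⟩, 2), (⟨1, [1, 3, 0, 2]⟩, 2),
   (⟨0, [0, 2, 1, 3]⟩, 2), (⟨3, [3, 2, 1, 0]⟩, 2), (⟨2, [2, 3, 0, 1]⟩, 2), (⟨1, [1, 0, 3, 2]⟩, 2),
   (⟨0, [0, 1, 2, 3]⟩, 2)]

noncomputable def ff : FreeSemigroup ℕ →₀ ℤ := (Lf.map fun p => Finsupp.single p.1 p.2).sum

theorem ff_apply (w : FreeSemigroup ℕ) : ff w = (Lf.map fun p => if p.1 = w then p.2 else 0).sum := by
  rw [ff, ← Finsupp.applyAddHom_apply, map_list_sum]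
  simp [Function.comp_def, Finsupp.single_apply]

theorem tab_perm : ∀ σ : Equiv.Perm (Fin 5), tab [σ 0, σ 1, σ 2, σ 3, σ 4] = if σ = 1 then 2 else 0 := by
  decide +kernel

end Pool.Agent.H.MP_f7573e_al
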